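import Pool.Agent.Q26.LV.C

/-!
# Level of distribution `1 - ε` after the addition of very few elements of an arbitrary set to the residue

From Mathlib: `ArithmeticFunction.vonMangoldt`: the function `Λ`; `Nat.totient`: Euler's function `φ`.
-/

set_option autoImplicit false

namespace Pool.Agent.Results.MP_a78e8f_nt.ElementsOfAnySets

open Finset

/-- `ψ(x; q, a)`: the sum of `Λ(n)` over the `n ≤ x` with `n ≡ a (mod q)`. -/
noncomputable def psi (x q a : ℕ) : ℝ :=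
  ∑ n ∈ (Icc 1 x).filter (fun n => n ≡ a [MOD q]), ArithmeticFunction.vonMangoldt n

/-- The sum of `λ(q) (ψ(x; q, a) - x / φ(q))` over the `q ≤ Q` coprime to `a`. -/
noncomputable def weighted (lam : ℕ → ℝ) (Q x a : ℕ) : ℝ :=
  ∑ q ∈ (Icc 1 Q).filter (fun q => a.Coprime q), lam q * (psi x q a - (x : ℝ) / Nat.totient q)

/-- Let `l ≥ 2`, `P ≥ 1`, `T` and `U` be fixed. There is a `C` such that for all `H`, `B` and `ε > 0` there is an `N₀`
with the following property. Let `A` be an ARBITRARY set of integers which contains an element of every interval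
`[x, l x]` with `x ≥ 1` (for example a sequence that grows exponentially; `N₀` and `C` do not depend on `A`). Let
`N ≥ N₀`, let `a` be an ARBITRARY integer with `|a| ≤ B N`, and let `λ_j(q)`, `j < J`, be at most `log ^ T N` arbitrary
systems of coefficients with `|λ_j(q)| ≤ log ^ T N`. There is a set `S` of at most `C (log log N) ^ 2` elements of `A`, all
between `log ^ H N` and `N / log ^ H N`, whose sum is divisible by `P`, such that `a' = a + ∑_{x ∈ S} x` has the following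
property if it is positive: the sum of `λ_j(q) (ψ(y; q, a') - y / φ(q))` over the moduli `q ≤ N ^ (1 - ε)` coprime
to `a'` has absolute value at most `N / log ^ U N`, for all `j` and all `y ≤ B N`. -/
theorem result (l P T U : ℕ) (hl : 2 ≤ l) (hP : 1 ≤ P) : ∃ C : ℝ, ∀ (H B : ℕ) (ε : ℝ), 0 < ε → ∃ N₀ : ℕ,
    ∀ A : Set ℕ, (∀ x : ℕ, 1 ≤ x → ∃ a ∈ A, x ≤ a ∧ a ≤ l * x) → ∀ N : ℕ, N₀ ≤ N → ∀ a : ℤ, |a| ≤ (B : ℤ) * N →
    ∀ J : ℕ, (J : ℝ) ≤ Real.log N ^ T → ∀ lam : Fin J → ℕ → ℝ, (∀ j q, |lam j q| ≤ Real.log N ^ T) →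
    ∃ S : Finset ℕ, (∀ x ∈ S, x ∈ A ∧ Real.log N ^ H ≤ x ∧ (x : ℝ) ≤ N / Real.log N ^ H) ∧
      (S.card : ℝ) ≤ C * Real.log (Real.log N) ^ 2 ∧ P ∣ ∑ x ∈ S, x ∧
      ∀ a' : ℤ, a' = a + ∑ x ∈ S, (x : ℤ) → 0 < a' →
        ∀ j, ∀ y ≤ B * N, |weighted (lam j) ⌊(N : ℝ) ^ (1 - ε)⌋₊ y a'.toNat| ≤ N / Real.log N ^ U := by
  obtain ⟨C, hC⟩ := Pool.Agent.Q26.LV.lv_las l P T U hl hP
  refine ⟨C, fun H B ε hε => ?_⟩
  obtain ⟨N₀, h0⟩ := hC H B ε hε
  refine ⟨N₀, fun A hA N hN a ha J hJ lam hlam => ?_⟩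
  obtain ⟨S, h1, h2, h3, h4⟩ := h0 A hA N hN a ha J hJ lam hlam
  refine ⟨S, h1, h2, h3, fun a' ha' hpos j y hy => ?_⟩
  rw [ha'] at hpos ⊢
  exact h4 hpos j y hy

end Pool.Agent.Results.MP_a78e8f_nt.ElementsOfAnySets
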