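import Pool.Agent.Y879.AP.Phi

/-!
# Almost primes in the reduced residue classes of every modulus: the Poisson law

What happens at the end of the range of the conjecture, for EVERY single modulus `q` and with almost primes in place of
the primes. Call `m` almost prime if it has no prime factor `≤ q ^ (1/r)`; `V` is the density of the almost primes among
the integers prime to `q`. For `x = q T`, `T ≤ x₀ / V` (so `x` is of order at most `q log q`), the numbers of the almost
primes in the reduced classes `b` modulo `q` are distributed like a Poisson variable with mean `T V`, up to `ε`; and this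
holds already for the classes `b` in any interval of length at least `q ^ θ`.
-/

set_option autoImplicit false

namespace Pool.Agent.Results.MP_a78e8f_nt.EveryModulusPoisson

open Finset Filter

/-- the density: the product of `1 - 1 / p` over the primes `p ≤ q ^ (1/r)` which do not divide `q` -/
noncomputable def V (r q : ℕ) : ℝ :=
  ∏ p ∈ (Icc 1 ⌊(q : ℝ) ^ (1 / (r : ℝ))⌋₊).filter (fun p => p.Prime ∧ ¬ p ∣ q), (1 - 1 / (p : ℝ))

open Classical in
/-- the number of the integers `m ≡ b` modulo `q` in `(b, b + q T]` without a prime factor `p ≤ q ^ (1/r)` -/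
noncomputable def count (r q T b : ℕ) : ℕ :=
  ((Ioc b (b + q * T)).filter (fun m => m ≡ b [MOD q] ∧
    ∀ p : ℕ, p.Prime → (p : ℝ) ≤ (q : ℝ) ^ (1 / (r : ℝ)) → ¬ p ∣ m)).card

lemma V_eq (r q : ℕ) : V r q =
    Pool.Agent.W123.RP.Vq (Pool.Agent.Y879.AP.Qn Pool.Agent.Y879.AP.Ql q) ⌊(q : ℝ) ^ (1 / (r : ℝ))⌋₊ := by
  rw [Pool.Agent.Y879.AP.Vn_eq]
  unfold V Pool.Agent.H373R2.T7.pz
  rw [filter_filter]

lemma count_eq (r q T b : ℕ) (hq : 0 < q) : count r q T b =
    Pool.Agent.Y879.AP.Wr q ⌊(q : ℝ) ^ (1 / (r : ℝ))⌋₊ T b := by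
  classical
  unfold count Pool.Agent.Y879.AP.Wr
  symm
  apply Finset.card_bij (fun h _ => b + q * h)
  · intro h hh
    rw [mem_filter, mem_Icc] at hh
    rw [mem_filter, mem_Ioc]
    refine ⟨⟨?_, ?_⟩, ?_, ?_⟩
    · have := Nat.mul_pos hq (show 0 < h by omega)
      omega
    · have := Nat.mul_le_mul_left q hh.1.2
      omega
    · exact (Nat.modEq_iff_dvd' (by omega)).2 ⟨h, by omega⟩ |>.symm
    · intro p hp hpr
      have h2 : p ≤ ⌊(q : ℝ) ^ (1 / (r : ℝ))⌋₊ := Nat.le_floor hpr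
      exact hh.2 p (mem_filter.2 ⟨mem_Icc.2 ⟨hp.one_lt.le, h2⟩, hp⟩)
  · intro h1 _ h2 _ h3
    have h4 : q * h1 = q * h2 := by omega
    exact Nat.eq_of_mul_eq_mul_left hq h4
  · intro m hm
    rw [mem_filter, mem_Ioc] at hm
    obtain ⟨⟨h1, h2⟩, h3, h4⟩ := hm
    obtain ⟨h, hh⟩ := (Nat.modEq_iff_dvd' h1.le).1 h3.symm
    have h5 : m = b + q * h := by omega
    refine ⟨h, ?_, h5.symm⟩
    rw [mem_filter, mem_Icc]
    refine ⟨⟨?_, ?_⟩, ?_⟩
    · rcases Nat.eq_zero_or_pos h with h6 | h6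
      · subst h6
        omega
      · exact h6
    · have h6 : q * h ≤ q * T := by omega
      exact Nat.le_of_mul_le_mul_left h6 hq
    · intro p hp
      rw [Pool.Agent.H373R2.T7.pz, mem_filter, mem_Icc] at hp
      have h6 : (p : ℝ) ≤ (q : ℝ) ^ (1 / (r : ℝ)) :=
        (Nat.le_floor_iff (by positivity)).1 hp.1.2
      rw [← h5]
      exact h4 p hp.2 h6

open Classical in
/-- **The Poisson law for the almost primes over the reduced classes of every modulus.** Let `θ, ε > 0` and `x₀` be real.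
There is `r₀` such that for every `r ≥ r₀` and EVERY large `q`, all intervals `(Z, Z + Y]` with `Y ≥ q ^ θ` and every `T`
with `T V ≤ x₀` the following holds. (1) For every set `A`, the number of the `b` prime to `q` in the interval such that
the number of the almost primes `m ≡ b` modulo `q` in `(b, b + q T]` is in `A` is
`Y φ(q) / q ∑_{j ∈ A} exp(-TV) (TV)^j / j!`, up to `ε Y φ(q) / q`. (2) The sum over these `b` of the distances of these
numbers from their mean `T V` is at least `T V (exp(-TV) - ε) Y φ(q) / q`. -/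
theorem result (θ x₀ ε : ℝ) (hθ : 0 < θ) (hε : 0 < ε) :
    ∃ r₀ : ℕ, 2 ≤ r₀ ∧ ∀ r : ℕ, r₀ ≤ r → ∃ q₀ : ℕ, ∀ q : ℕ, q₀ ≤ q → ∀ Z Y : ℕ, (q : ℝ) ^ θ ≤ Y →
      ∀ T : ℕ, T * V r q ≤ x₀ →
        (∀ A : Finset ℕ,
          |(((Ioc Z (Z + Y)).filter (fun b => b.Coprime q ∧ count r q T b ∈ A)).card : ℝ) -
            Y * ((q.totient : ℝ) / q) *
              ∑ j ∈ A, Real.exp (-(T * V r q)) * (T * V r q) ^ j / j.factorial| ≤
            ε * (Y * ((q.totient : ℝ) / q))) ∧
        T * V r q * (Real.exp (-(T * V r q)) - ε) * (Y * ((q.totient : ℝ) / q)) ≤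
          ∑ b ∈ (Ioc Z (Z + Y)).filter (fun b => b.Coprime q), |(count r q T b : ℝ) - T * V r q| := by
  obtain ⟨r0, hr0, h⟩ := Pool.Agent.Y879.AP.phi_law θ x₀ ε hθ hε
  refine ⟨r0, hr0, fun r hr => ?_⟩
  obtain ⟨q₀, hq₀⟩ := eventually_atTop.1 ((h r hr).and (eventually_ge_atTop 1))
  refine ⟨q₀, fun q hq Z Y hY T hT => ?_⟩
  obtain ⟨h1, h2⟩ := hq₀ q hq
  have hV0 : 0 ≤ V r q := by
    unfold V
    apply prod_nonneg
    intro p hp
    have hp1 : (1 : ℝ) ≤ p := by exact_mod_cast (mem_Icc.1 (mem_filter.1 hp).1).1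
    have : 1 / (p : ℝ) ≤ 1 := by
      rw [div_le_one (by linarith)]
      exact hp1
    linarith
  have key : ∀ A : Finset ℕ,
      |(((Ioc Z (Z + Y)).filter (fun b => b.Coprime q ∧ count r q T b ∈ A)).card : ℝ) -
        Y * ((q.totient : ℝ) / q) *
          ∑ j ∈ A, Real.exp (-(T * V r q)) * (T * V r q) ^ j / j.factorial| ≤
        ε * (Y * ((q.totient : ℝ) / q)) := by
    intro A
    rw [V_eq] at hT ⊢
    have h3 := h1 Z Y hY T hT A
    have e1 : ((Ioc Z (Z + Y)).filter (fun b => b.Coprime q ∧ count r q T b ∈ A)) =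
        ((Ioc Z (Z + Y)).filter (fun b => b.Coprime q ∧
          Pool.Agent.Y879.AP.Wr q ⌊(q : ℝ) ^ (1 / (r : ℝ))⌋₊ T b ∈ A)) := by
      apply filter_congr
      intro b _
      rw [count_eq r q T b (by omega)]
    rw [e1]
    exact h3
  refine ⟨key, ?_⟩
  obtain ⟨lam, hlam⟩ : ∃ lam : ℝ, lam = T * V r q := ⟨_, rfl⟩
  have hlam0 : 0 ≤ lam := by rw [hlam]; positivity
  have h4 := key {0}
  rw [sum_singleton, pow_zero, Nat.factorial_zero, Nat.cast_one, mul_one, div_one, ← hlam] at h4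
  obtain ⟨M, hM⟩ : ∃ M : ℝ, M = Y * ((q.totient : ℝ) / q) := ⟨_, rfl⟩
  rw [← hM] at h4 ⊢
  rw [← hlam]
  have h5 := (abs_le.1 h4).1
  have h6 : ∑ b ∈ (Ioc Z (Z + Y)).filter (fun b => b.Coprime q ∧ count r q T b ∈ ({0} : Finset ℕ)),
      |(count r q T b : ℝ) - lam| ≤
      ∑ b ∈ (Ioc Z (Z + Y)).filter (fun b => b.Coprime q), |(count r q T b : ℝ) - lam| := by
    apply sum_le_sum_of_subset_of_nonneg
    · intro b hb
      rw [mem_filter] at hb ⊢
      exact ⟨hb.1, hb.2.1⟩
    · intro b _ _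
      exact abs_nonneg _
  refine le_trans ?_ h6
  have h7 : ∑ b ∈ (Ioc Z (Z + Y)).filter (fun b => b.Coprime q ∧ count r q T b ∈ ({0} : Finset ℕ)),
      |(count r q T b : ℝ) - lam| =
      ((Ioc Z (Z + Y)).filter (fun b => b.Coprime q ∧ count r q T b ∈ ({0} : Finset ℕ))).card * lam := by
    rw [← nsmul_eq_mul, ← sum_const]
    apply sum_congr rfl
    intro b hb
    have h8 := mem_singleton.1 (mem_filter.1 hb).2.2
    rw [h8, Nat.cast_zero, zero_sub, abs_neg, abs_of_nonneg hlam0]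
  rw [h7]
  have h9 := mul_le_mul_of_nonneg_right (show (Real.exp (-lam) - ε) * M ≤
    (((Ioc Z (Z + Y)).filter (fun b => b.Coprime q ∧ count r q T b ∈ ({0} : Finset ℕ))).card : ℝ) by linarith) hlam0
  linarith

end Pool.Agent.Results.MP_a78e8f_nt.EveryModulusPoisson
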