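import Pool.Agent.Q56.TF.Mod

/-!
# Primes in almost all residue classes to all moduli near almost all members of a real sequence

The moduli `q` are arbitrary integers with `|q - r m| ≤ log ^ A N` and `q ≥ N / log ^ κ N`, for almost all `m ≤ x`,
where `r 1, ..., r x` is an arbitrary family of real numbers of nearly minimal energy; for instance the (real) values
`β + κ₀ f m` of a polynomial `f` with integer coefficients, with arbitrary real `κ₀ ≠ 0` and `β`, or of a generalised
polynomial `f t = ∑ w_y t ^ y` whose largest exponent is greater than `1` and not an integer (`f t = t ^ c`: the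
sequences of Piatetski-Shapiro). The primes are those up to `y`, where `q ≤ y ≤ q log ^ κ N`: these are the largest
moduli for which one can expect equidistribution in almost all residue classes.

From Mathlib: `ArithmeticFunction.vonMangoldt`: the function `Λ`; `Nat.totient`: Euler's function `φ`;
`Polynomial ℤ`, `f.eval m`: polynomials and their values. The formula for the variance for families of integers is
from the starting files (`Pool.Agent.TH935.HM.mod_fam`).
-/

set_option autoImplicit false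

namespace Pool.Agent.Results.MP_a78e8f_nt.ModuliNearRealSequences

open Finset

open Classical in
/-- The energy of order `p` of the family of real numbers `r 1, ..., r x`: the number of the pairs `v`, `w` of
`p`-tuples of elements of `{1, ..., x}` such that `r (v 1) + ... + r (v p)` and `r (w 1) + ... + r (w p)` differ
by at most `1`. -/
noncomputable def energy (p x : ℕ) (r : ℕ → ℝ) : ℕ :=
  (((Fintype.piFinset fun _ : Fin p => Icc 1 x) ×ˢ (Fintype.piFinset fun _ : Fin p => Icc 1 x)).filter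
    (fun q => |∑ i, r (q.1 i) - ∑ i, r (q.2 i)| ≤ 1)).card

/-- `ψ(y; q, a) = ∑_{n ≤ y, n ≡ a mod q} Λ(n)` for `0 ≤ a < q` -/
noncomputable def psiAP (y : ℝ) (q a : ℕ) : ℝ :=
  ∑ n ∈ (Icc 1 ⌊y⌋₊).filter (fun n => n % q = a), ArithmeticFunction.vonMangoldt n

/-- The reduced residues `0 ≤ a < q` modulo `q`. -/
def reduced (q : ℕ) : Finset ℕ := (range q).filter (fun a => Nat.Coprime a q)

/-- The error `ψ(y; q, a) - y / φ(q)` in the prime number theorem for the residue class of `a` modulo `q`. -/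
noncomputable def E (y : ℝ) (q a : ℕ) : ℝ := psiAP y q a - y / (Nat.totient q : ℝ)

open Classical in
/-- The number of the reduced residue classes `a` modulo `q` with `|ψ(y; q, a) - y / φ(q)| ≥ η y / φ(q)`. -/
noncomputable def bad (y : ℝ) (q : ℕ) (η : ℝ) : ℕ :=
  ((reduced q).filter (fun a => η * (y / (Nat.totient q : ℝ)) ≤ |E y q a|)).card

/-- The modulus `q` is good: if `q ≥ N / log ^ κ N` then for all real `y` between `q` and `q log ^ κ N`

* the sum of the squares of the errors `E y q a` over the reduced residue classes `a` is `(1 + O(ε)) y log q`;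
* the sum of the `|E y q a|` is at most `√((1 + ε) φ(q) y log q)`;
* for all `η > 0` the number of the reduced classes `a` with `|E y q a| ≥ η y / φ(q)` is at most
  `(1 + ε) φ(q) · φ(q) log q / (η² y)`. -/
def Good (ε : ℝ) (κ N q : ℕ) : Prop :=
  (N : ℝ) ≤ q * Real.log N ^ κ → ∀ y : ℝ, (q : ℝ) ≤ y → y ≤ q * Real.log N ^ κ →
    |∑ a ∈ reduced q, E y q a ^ 2 - y * Real.log q| ≤ ε * (y * Real.log q) ∧
    ∑ a ∈ reduced q, |E y q a| ≤ √((1 + ε) * (Nat.totient q * (y * Real.log q))) ∧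
    ∀ η : ℝ, 0 < η → (bad y q η : ℝ) ≤ (1 + ε) * Nat.totient q * (Nat.totient q * Real.log q / (η ^ 2 * y))

open Classical in
/-- The number of the `m` in `{1, ..., x}` for which not all positive integers `q` at a distance of at most `w` from
`r m` have the property `G`. -/
noncomputable def exceptions (x : ℕ) (r : ℕ → ℝ) (w : ℝ) (G : ℕ → Prop) : ℕ :=
  ((Icc 1 x).filter (fun m => ∃ q : ℕ, 0 < q ∧ |(q : ℝ) - r m| ≤ w ∧ ¬ G q)).card

/-- The bound at scale `N` for the windows around the `r m`, `m ≤ x`: for all `m ≤ x` with at most `x / log ^ U N`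
exceptions all positive integers `q` with `|q - r m| ≤ log ^ A N` are good moduli. -/
def Holds (ε : ℝ) (A κ U N x : ℕ) (r : ℕ → ℝ) : Prop :=
  (exceptions x r (Real.log N ^ A) (Good ε κ N) : ℝ) ≤ x / Real.log N ^ U

/-- The sequence `f`, of growth `x ^ e`, has the property at all large scales: for all `x` with
`N / log ^ C N ≤ x ^ e ≤ B N` and all translates `β + f m`, `|β| ≤ B N`. -/
def Sequence (ε : ℝ) (A B C κ U : ℕ) (f : ℕ → ℝ) (e : ℝ) : Prop :=
  ∃ N₀ : ℕ, ∀ N : ℕ, N₀ ≤ N → ∀ x : ℕ, (x : ℝ) ^ e ≤ B * N → (N : ℝ) ≤ Real.log N ^ C * (x : ℝ) ^ e →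
    ∀ β : ℝ, |β| ≤ B * N → Holds ε A κ U N x (fun m => β + f m)

lemma good_of {ε : ℝ} {κ N q : ℕ} (hq : 0 < q)
    (h : ¬ ∃ y : ℝ, (q : ℝ) ≤ y ∧ y ≤ q * Real.log N ^ κ ∧
      ¬ |Pool.Agent.TH894.PV.G y q - y * Real.log q| ≤ ε * (y * Real.log q)) : Good ε κ N q := by
  classical
  intro _ y hy1 hy2
  push Not at h
  have hG : |∑ a ∈ reduced q, E y q a ^ 2 - y * Real.log q| ≤ ε * (y * Real.log q) := h y hy1 hy2
  have hq0 : (0 : ℝ) < q := by exact_mod_cast hq
  have hy0 : 0 < y := by linarith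
  have hφ : (0 : ℝ) < (Nat.totient q : ℝ) := by exact_mod_cast Nat.totient_pos.2 hq
  have hcard : ((reduced q).card : ℝ) = (Nat.totient q : ℝ) := by
    rw [Nat.totient_eq_card_coprime]
    unfold reduced
    congr 2
    ext a
    rw [mem_filter, mem_filter, Nat.coprime_comm]
  have hG1 : ∑ a ∈ reduced q, E y q a ^ 2 ≤ (1 + ε) * (y * Real.log q) := by
    have := (abs_le.1 hG).2
    linarith
  refine ⟨hG, ?_, fun η hη => ?_⟩
  · apply Real.le_sqrt_of_sq_le
    calc (∑ a ∈ reduced q, |E y q a|) ^ 2 ≤ (reduced q).card * ∑ a ∈ reduced q, |E y q a| ^ 2 :=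
          sq_sum_le_card_mul_sum_sq
      _ = Nat.totient q * ∑ a ∈ reduced q, E y q a ^ 2 := by
          rw [hcard]
          simp only [sq_abs]
      _ ≤ Nat.totient q * ((1 + ε) * (y * Real.log q)) := mul_le_mul_of_nonneg_left hG1 hφ.le
      _ = _ := by ring
  · have h1 : (bad y q η : ℝ) * (η * (y / (Nat.totient q : ℝ))) ^ 2 ≤ ∑ a ∈ reduced q, E y q a ^ 2 := by
      unfold bad
      rw [← nsmul_eq_mul, ← sum_const]
      refine (sum_le_sum (g := fun a => E y q a ^ 2) fun a ha => ?_).trans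
        (sum_le_sum_of_subset_of_nonneg (filter_subset _ _) fun _ _ _ => sq_nonneg _)
      rw [← sq_abs (E y q a)]
      exact pow_le_pow_left₀ (by positivity) (mem_filter.1 ha).2 2
    have h2 := h1.trans hG1
    have h3 : 0 < (η * (y / (Nat.totient q : ℝ))) ^ 2 := by positivity
    rw [← le_div_iff₀ h3] at h2
    refine h2.trans (le_of_eq ?_)
    field_simp

lemma holds_of (A B' κ U p C' : ℕ) (hB1 : 1 ≤ B') (ε : ℝ) (hε : 0 < ε) (hε1 : ε ≤ 1) :
    ∃ N₀ : ℕ, ∀ N : ℕ, N₀ ≤ N → ∀ (x : ℕ) (r : ℕ → ℝ), Pool.Agent.Q56.TF.Near A p B' C' N x r →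
      Holds ε A κ U N x r := by
  classical
  obtain ⟨N₁, h1⟩ := Pool.Agent.Q56.TF.mod_near A p B' C' κ U hB1 ε hε hε1
  refine ⟨N₁, fun N hN x r hm => ?_⟩
  refine h1 N hN x r hm _ (filter_subset _ _) ?_
  intro m hm
  obtain ⟨_, q, hq0, hq1, hq2⟩ := mem_filter.1 hm
  by_cases hq3 : (N : ℝ) ≤ q * Real.log N ^ κ
  · refine ⟨q, hq1, hq3, ?_⟩
    by_contra hcon
    exact hq2 (good_of hq0 hcon)
  · exact absurd (fun h => absurd h hq3) hq2

lemma sequence_of {f : ℕ → ℝ} {e : ℝ} (h : Pool.Agent.Q56.TF.Base f e) (he : 1 ≤ e) (A B C κ U : ℕ) (ε : ℝ)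
    (hε : 0 < ε) (hε1 : ε ≤ 1) : Sequence ε A B C κ U f e := by
  obtain ⟨p, B', C', N₀, h1⟩ := Pool.Agent.Q56.TF.near_base h he A B C
  obtain ⟨N₁, h2⟩ := holds_of A (B + B' + 1) κ U p C' (by omega) ε hε hε1
  exact ⟨N₀ + N₁, fun N hN x hx1 hx2 β hβ =>
    h2 N (by omega) x _ ((h1 N (by omega) x hx1 hx2 β hβ).mono (by omega))⟩

/-- Let `A`, `B`, `C`, `κ`, `U` and `0 < ε ≤ 1` be fixed.

* For every `p` the following holds for all large `N`. Let `r 1, ..., r x` be an arbitrary family of real numbers in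
  `[-B N, B N]` with an energy of order `p` of at most `log ^ C N` times `x ^ (2 p) / N` (the minimal possible order
  of magnitude). For all `m ≤ x` with at most `x / log ^ U N` exceptions, ALL moduli `q > 0` with
  `|q - r m| ≤ log ^ A N` and `q ≥ N / log ^ κ N` satisfy, for ALL real `y` with `q ≤ y ≤ q log ^ κ N`: the sum of
  `(ψ(y; q, a) - y / φ(q)) ^ 2` over the reduced residue classes is `(1 + O(ε)) y log q`, the sum of
  `|ψ(y; q, a) - y / φ(q)|` is at most `√((1 + ε) φ(q) y log q)`, and for all `η > 0` the number of the reduced classes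
  with `|ψ(y; q, a) - y / φ(q)| ≥ η y / φ(q)` is at most `(1 + ε) φ(q) · φ(q) log q / (η² y)` (all but a proportion of
  `log ^ (1 - κ) N` of the classes for `y = q log ^ κ N`).
* This holds for `r m = β + κ₀ f m`, `m ≤ x`, where `f` is a fixed nonconstant polynomial with integer
  coefficients, of degree `d`, `κ₀ ≠ 0` is a fixed real number, `β` is any real number with `|β| ≤ B N`, and
  `N / log ^ C N ≤ x ^ d ≤ B N`.
* This holds for `r m = β + ∑ w_y m ^ y` (a sum over a finite set `F` of real exponents `y`), if the largest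
  exponent `e` is greater than `1` and not an integer, `w_e ≠ 0`, `|β| ≤ B N` and `N / log ^ C N ≤ x ^ e ≤ B N`; for
  instance for `r m = β + m ^ e`. -/
theorem result (A B C κ U : ℕ) (ε : ℝ) (hε : 0 < ε) (hε1 : ε ≤ 1) :
    (∀ p : ℕ, ∃ N₀ : ℕ, ∀ N : ℕ, N₀ ≤ N → ∀ (x : ℕ) (r : ℕ → ℝ), (∀ m ∈ Icc 1 x, |r m| ≤ B * N) →
      (energy p x r : ℝ) * N ≤ Real.log N ^ C * (x : ℝ) ^ (2 * p) → Holds ε A κ U N x r) ∧
    (∀ f : Polynomial ℤ, 1 ≤ f.natDegree → ∀ κ₀ : ℝ, κ₀ ≠ 0 →
      Sequence ε A B C κ U (fun m => κ₀ * ((f.eval (m : ℤ) : ℤ) : ℝ)) f.natDegree) ∧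
    (∀ (F : Finset ℝ) (w : ℝ → ℝ) (e : ℝ), e ∈ F → (∀ y ∈ F, y ≤ e) → w e ≠ 0 → 1 < e → (∀ k : ℕ, e ≠ k) →
      Sequence ε A B C κ U (fun m => ∑ y ∈ F, w y * (m : ℝ) ^ y) e) := by
  classical
  refine ⟨fun p => ?_, fun f hd κ₀ hκ => ?_, fun F w e heF hmax hwe he hen => ?_⟩
  · obtain ⟨B', C', N₀, h1⟩ := Pool.Agent.Q56.TF.near_gen p A B C
    obtain ⟨N₁, h2⟩ := holds_of A (B + B' + 1) κ U p C' (by omega) ε hε hε1
    exact ⟨N₀ + N₁, fun N hN x r hr hE => h2 N (by omega) x _ ((h1 N (by omega) x r hr hE).mono (by omega))⟩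
  · exact sequence_of ((Pool.Agent.Q56.TF.base_poly f hd).dil hκ) (by exact_mod_cast hd) A B C κ U ε hε hε1
  · exact sequence_of (Pool.Agent.Q56.TF.base_gp F w e heF hmax hwe he hen) he.le A B C κ U ε hε hε1

end Pool.Agent.Results.MP_a78e8f_nt.ModuliNearRealSequences
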