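import Pool.Agent.Y856.Metric.Prob

/-!
# The bound of Elliott and Halberstam for random residue classes

For every modulus `q` a random finite set `T(q)` of residues is drawn; nothing is assumed about the dependence
between different moduli.  If a given class modulo `q` is represented in `T(q)` with probability at most
`κ q ^ (-s)` (for instance if `T(q)` consists of `q ^ (1 - s)` classes which are uniformly distributed), then almost
surely the bound of Elliott and Halberstam holds at every level `θ < 1 / (2 - s)`, with the maxima over the residues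
of `T(q)` and over the lengths `y ≤ x` inside the sum over the moduli.
-/

set_option autoImplicit false

namespace Pool.Agent.Results.MP_a78e8f_nt.RandomClasses

open Finset MeasureTheory

/-- `π(y)`: the number of primes `p ≤ y`. -/
noncomputable def primePi (y : ℕ) : ℕ := ((Icc 1 y).filter (fun p : ℕ => p.Prime)).card

/-- `π(y; q, a)`: the number of primes `p ≤ y` with `p ≡ a (mod q)`, where `a` is an integer. -/
noncomputable def primePiAP (y q : ℕ) (a : ℤ) : ℕ :=
  ((Icc 1 y).filter (fun p : ℕ => p.Prime ∧ (p : ℤ) ≡ a [ZMOD q])).card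

/-- The bound of Elliott and Halberstam at level `θ` with the residues `a` modulo `q` restricted to the finite set
`T(q)`: for every `A > 0` there is `C` such that for all integers `x > 2` and all choices of lengths `y(q) ≤ x` and of
residues `a(q)` the sum of `|π(y(q); q, a(q)) - π(y(q))/φ(q)|` over all `q ≤ x ^ θ` with `a(q) ∈ T(q)` and
`(a(q), q) = 1` is at most `C x / (log x) ^ A`. (Thus the maxima over `y ≤ x` and over `a ∈ T(q)` stand inside the
sum over `q`.) -/
def EHOver (θ : ℝ) (T : ℕ → Finset ℤ) : Prop :=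
  ∀ A : ℝ, 0 < A → ∃ C : ℝ, ∀ x : ℕ, 2 < x → ∀ y : ℕ → ℕ, (∀ q, y q ≤ x) → ∀ a : ℕ → ℤ,
    ∑ q ∈ (Icc 1 ⌊(x : ℝ) ^ θ⌋₊).filter (fun q => a q ∈ T q ∧ Int.gcd (a q) q = 1),
      |(primePiAP (y q) q (a q) : ℝ) - (primePi (y q) : ℝ) / (Nat.totient q : ℝ)| ≤
      C * (x / Real.log x ^ A)

/-- A smaller level follows from a larger one. -/
lemma EHOver.mono {θ θ' : ℝ} {T : ℕ → Finset ℤ} (h : EHOver θ' T) (hθ : θ ≤ θ') : EHOver θ T := by
  intro A hA
  obtain ⟨C, hC⟩ := h A hA
  refine ⟨C, fun x hx y hy a => le_trans ?_ (hC x hx y hy a)⟩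
  apply Finset.sum_le_sum_of_subset_of_nonneg
  · intro q hq
    rw [mem_filter, mem_Icc] at hq ⊢
    refine ⟨⟨hq.1.1, hq.1.2.trans ?_⟩, hq.2⟩
    apply Nat.floor_le_floor
    apply Real.rpow_le_rpow_of_exponent_le _ hθ
    exact_mod_cast (by omega : 1 ≤ x)
  · intro q _ _
    exact abs_nonneg _

/-- The event that the class `l` modulo `q` is represented in the random set `T(q)`. -/
def Represented {Ω : Type} (T : ℕ → Ω → Finset ℤ) (q : ℕ) (l : ℤ) : Set Ω :=
  {ω | ∃ b ∈ T q ω, b ≡ l [ZMOD q]}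

/-- **The bound of Elliott and Halberstam for random classes.**

(1) Let `T(q)`, `q ≥ 1`, be random finite sets of integers on one probability space, with an arbitrary dependence
between different moduli and between the members of one set, such that for every modulus `q` and every class `l` the
probability that `T(q)` represents `l` modulo `q` is at most `κ q ^ (-s)`, where `s ≤ 1`.  If `θ (2 - s) < 1` then
almost surely the bound of Elliott and Halberstam holds at the level `θ` over the residues in the sets `T(q)`.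

(2) Let `c(q)`, `q ≥ 1`, be random integers on one probability space, such that for every `ε > 0` the probability of
`c(q) ≡ l (mod q)` is at most `κ(ε) q ^ (-1 + ε)` for all `q` and `l`.  (For example `c(q)` is uniformly distributed
modulo `q`, or over the classes prime to `q`.)  Then almost surely the bound holds for the residue system `c` at all
levels `θ < 1`. -/
theorem result :
    (∀ (Ω : Type) [MeasurableSpace Ω] (μ : Measure Ω) [IsProbabilityMeasure μ]
      (T : ℕ → Ω → Finset ℤ) (s κ θ : ℝ), s ≤ 1 →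
      (∀ q : ℕ, 1 ≤ q → ∀ l : ℤ, MeasurableSet (Represented T q l)) →
      (∀ q : ℕ, 1 ≤ q → ∀ l : ℤ, μ.real (Represented T q l) ≤ κ * (q : ℝ) ^ (-s)) →
      θ * (2 - s) < 1 → ∀ᵐ ω ∂μ, EHOver θ (fun q => T q ω)) ∧
    (∀ (Ω : Type) [MeasurableSpace Ω] (μ : Measure Ω) [IsProbabilityMeasure μ]
      (c : ℕ → Ω → ℤ), (∀ q : ℕ, Measurable (c q)) →
      (∀ ε : ℝ, 0 < ε → ∃ κ : ℝ, ∀ q : ℕ, 1 ≤ q → ∀ l : ℤ,
        μ.real {ω | c q ω ≡ l [ZMOD q]} ≤ κ * (q : ℝ) ^ (-1 + ε)) →
      ∀ᵐ ω ∂μ, ∀ θ : ℝ, θ < 1 → EHOver θ (fun q => {c q ω})) := by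
  have h1 : ∀ (Ω : Type) [MeasurableSpace Ω] (μ : Measure Ω) [IsProbabilityMeasure μ]
      (T : ℕ → Ω → Finset ℤ) (s κ θ : ℝ), s ≤ 1 →
      (∀ q : ℕ, 1 ≤ q → ∀ l : ℤ, MeasurableSet (Represented T q l)) →
      (∀ q : ℕ, 1 ≤ q → ∀ l : ℤ, μ.real (Represented T q l) ≤ κ * (q : ℝ) ^ (-s)) →
      θ * (2 - s) < 1 → ∀ᵐ ω ∂μ, EHOver θ (fun q => T q ω) := by
    intro Ω _ μ _ T s κ θ hs hT hlaw h
    exact Pool.Agent.Y856.prob_main μ T s κ θ hs hT hlaw h
  refine ⟨h1, ?_⟩
  intro Ω _ μ _ c hc hlaw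
  have hrep : ∀ (q : ℕ) (l : ℤ), Represented (fun q ω => {c q ω}) q l = {ω | c q ω ≡ l [ZMOD q]} := by
    intro q l
    ext ω
    simp [Represented]
  have key : ∀ n : ℕ, ∀ᵐ ω ∂μ, EHOver (1 - 1 / ((n : ℝ) + 2)) (fun q => {c q ω}) := by
    intro n
    have hn : (0 : ℝ) < (n : ℝ) + 2 := by positivity
    obtain ⟨κ, hκ⟩ := hlaw (1 / ((n : ℝ) + 2)) (by positivity)
    refine h1 Ω μ (fun q ω => {c q ω}) (1 - 1 / ((n : ℝ) + 2)) κ _ (by
      have : (0 : ℝ) < 1 / ((n : ℝ) + 2) := by positivity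
      linarith) ?_ ?_ ?_
    · intro q hq l
      rw [hrep]
      have : {ω | c q ω ≡ l [ZMOD q]} = (c q) ⁻¹' {b : ℤ | b ≡ l [ZMOD q]} := rfl
      rw [this]
      exact hc q (MeasurableSet.of_discrete)
    · intro q hq l
      rw [hrep]
      refine (hκ q hq l).trans (le_of_eq ?_)
      congr 2
      ring
    · have h2 : (0 : ℝ) < 1 / ((n : ℝ) + 2) := by positivity
      nlinarith
  rw [← ae_all_iff] at key
  filter_upwards [key] with ω hω θ hθ
  obtain ⟨n, hn⟩ := exists_nat_gt (1 / (1 - θ))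
  refine (hω n).mono ?_
  have h3 : 0 < 1 - θ := by linarith
  have h4 : 1 / ((n : ℝ) + 2) ≤ 1 - θ := by
    rw [div_le_iff₀ (by positivity)]
    have h5 : 1 < n * (1 - θ) := by
      rw [div_lt_iff₀ h3] at hn
      exact hn
    nlinarith
  linarith

end Pool.Agent.Results.MP_a78e8f_nt.RandomClasses
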